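import Pool.Agent.H73.G.R8.TH21.MS.JReal

/-!
# Derivatives of the modular invariant on the imaginary axis
-/

set_option autoImplicit false

open Filter Topology UpperHalfPlane

namespace Pool.Agent.TH21.MS

/-! ## the complex derivatives -/

theorem jj_an (τ : ℂ) (hτ : 0 < τ.im) : AnalyticAt ℂ jj τ := by
  have hq : AnalyticAt ℂ (fun τ : ℂ => Complex.exp (2 * (Real.pi : ℂ) * Complex.I * τ)) τ := by
    have h1 : AnalyticAt ℂ (fun τ : ℂ => 2 * (Real.pi : ℂ) * Complex.I * τ) τ :=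
      analyticAt_const.mul analyticAt_id
    exact h1.cexp
  have hb : Complex.exp (2 * (Real.pi : ℂ) * Complex.I * τ) ∈ Metric.ball (0 : ℂ) 1 := by
    rw [mem_ball_zero_iff, Complex.norm_exp, Real.exp_lt_one_iff]
    have : (2 * (Real.pi : ℂ) * Complex.I * τ).re = -(2 * Real.pi * τ.im) := by
      simp [Complex.mul_re, Complex.mul_im]
    rw [this]
    have := Real.pi_pos
    have : 0 < 2 * Real.pi * τ.im := by positivity
    linarith
  have h3 : AnalyticAt ℂ (fun τ : ℂ => A3 ℂ (Complex.exp (2 * (Real.pi : ℂ) * Complex.I * τ))) τ :=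
    AnalyticAt.fun_comp (g := A3 ℂ) (f := fun τ : ℂ => Complex.exp (2 * (Real.pi : ℂ) * Complex.I * τ))
      (A3_an ℂ _ hb) hq
  have h5 : AnalyticAt ℂ (fun τ : ℂ => A5 ℂ (Complex.exp (2 * (Real.pi : ℂ) * Complex.I * τ))) τ :=
    AnalyticAt.fun_comp (g := A5 ℂ) (f := fun τ : ℂ => Complex.exp (2 * (Real.pi : ℂ) * Complex.I * τ))
      (A5_an ℂ _ hb) hq
  have hE4 : AnalyticAt ℂ E4 τ := by
    have : E4 = fun τ => 1 + 240 * (Complex.exp (2 * (Real.pi : ℂ) * Complex.I * τ) *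
      A3 ℂ (Complex.exp (2 * (Real.pi : ℂ) * Complex.I * τ))) := funext E4_q
    rw [this]
    exact analyticAt_const.add (analyticAt_const.mul (hq.mul h3))
  have hE6 : AnalyticAt ℂ E6 τ := by
    have : E6 = fun τ => 1 - 504 * (Complex.exp (2 * (Real.pi : ℂ) * Complex.I * τ) *
      A5 ℂ (Complex.exp (2 * (Real.pi : ℂ) * Complex.I * τ))) := funext E6_q
    rw [this]
    exact analyticAt_const.sub (analyticAt_const.mul (hq.mul h5))
  have hne : E4 τ ^ 3 - E6 τ ^ 2 ≠ 0 := disc_ne ⟨τ, hτ⟩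
  exact (analyticAt_const.mul (hE4.pow 3)).div ((hE4.pow 3).sub (hE6.pow 2)) hne

/-! ## the inversion -/

end Pool.Agent.TH21.MS
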