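import Mathlib

/-!
# The modular invariant on the imaginary axis
-/

set_option autoImplicit false

open Filter Topology UpperHalfPlane ModularForm EisensteinSeries

namespace Pool.Agent.TH21.MS

/-- the Eisenstein series of weight four -/
noncomputable def E4 (τ : ℂ) : ℂ :=
  1 + 240 * ∑' m : ℕ, ((ArithmeticFunction.sigma 3 (m + 1) : ℕ) : ℂ) *
    Complex.exp (2 * (Real.pi : ℂ) * Complex.I * τ) ^ (m + 1)

/-- the Eisenstein series of weight six -/
noncomputable def E6 (τ : ℂ) : ℂ :=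
  1 - 504 * ∑' m : ℕ, ((ArithmeticFunction.sigma 5 (m + 1) : ℕ) : ℂ) *
    Complex.exp (2 * (Real.pi : ℂ) * Complex.I * τ) ^ (m + 1)

/-- the modular invariant `j` -/
noncomputable def jj (τ : ℂ) : ℂ := 1728 * E4 τ ^ 3 / (E4 τ ^ 3 - E6 τ ^ 2)

theorem E4_eq (z : ℍ) : E4 z = E₄ z := by
  have h := EisensteinSeries.q_expansion_bernoulli (k := 4) (by norm_num) ⟨2, rfl⟩ z
  rw [show (E₄ z : ℂ) = E (k := 4) (by norm_num) z from rfl, h]
  have hs := tsum_pnat_eq_tsum_succ (f := fun n : ℕ => ((ArithmeticFunction.sigma 3 n : ℕ) : ℂ) *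
    Complex.exp (2 * Real.pi * Complex.I * z) ^ n)
  have h2 : ∑' n : ℕ+, ((ArithmeticFunction.sigma (4 - 1) n : ℕ) : ℂ) *
      Complex.exp (2 * Real.pi * Complex.I * z) ^ (n : ℤ) =
      ∑' m : ℕ, ((ArithmeticFunction.sigma 3 (m + 1) : ℕ) : ℂ) *
        Complex.exp (2 * (Real.pi : ℂ) * Complex.I * z) ^ (m + 1) := by
    rw [← hs]
    refine tsum_congr fun n => ?_
    norm_num
  rw [h2, show bernoulli 4 = -1 / 30 by decide +kernel, E4]
  push_cast
  ring

theorem E6_eq (z : ℍ) : E6 z = E₆ z := by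
  have h := EisensteinSeries.q_expansion_bernoulli (k := 6) (by norm_num) ⟨3, rfl⟩ z
  rw [show (E₆ z : ℂ) = E (k := 6) (by norm_num) z from rfl, h]
  have hs := tsum_pnat_eq_tsum_succ (f := fun n : ℕ => ((ArithmeticFunction.sigma 5 n : ℕ) : ℂ) *
    Complex.exp (2 * Real.pi * Complex.I * z) ^ n)
  have h2 : ∑' n : ℕ+, ((ArithmeticFunction.sigma (6 - 1) n : ℕ) : ℂ) *
      Complex.exp (2 * Real.pi * Complex.I * z) ^ (n : ℤ) =
      ∑' m : ℕ, ((ArithmeticFunction.sigma 5 (m + 1) : ℕ) : ℂ) *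
        Complex.exp (2 * (Real.pi : ℂ) * Complex.I * z) ^ (m + 1) := by
    rw [← hs]
    refine tsum_congr fun n => ?_
    norm_num
  rw [h2, show bernoulli 6 = 1 / 42 by decide +kernel, E6]
  push_cast
  ring

theorem disc_ne (z : ℍ) : E4 z ^ 3 - E6 z ^ 2 ≠ 0 := by
  rw [E4_eq, E6_eq]
  intro h0
  have h1 := discriminant_eq_E₄_cube_sub_E₆_sq z
  rw [h0, zero_div] at h1
  exact discriminant_ne_zero z h1

end Pool.Agent.TH21.MS
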